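import Mathlib
import Pool.Agent.H.MP_ff6929_pr.B

open Equiv Filter Topology

namespace Pool.Agent.Results.MP_ff6929_pr.NotHam

/-- arcs of the complete digraph on three vertices -/
abbrev Arc := {p : Fin 3 × Fin 3 // p.1 ≠ p.2}

/-- arcs of the lift determined by the six matchings `M` -/
def Adj {n : ℕ} (M : Arc → Perm (Fin n)) (u v : Fin 3 × Fin n) : Prop :=
  ∃ h : u.1 ≠ v.1, M ⟨(u.1, v.1), h⟩ u.2 = v.2

/-- the lift has a directed cycle through all of its `3 n` vertices -/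
def Ham {n : ℕ} (M : Arc → Perm (Fin n)) : Prop :=
  ∃ c : ZMod (3 * n) ≃ Fin 3 × Fin n, ∀ i, Adj M (c i) (c (i + 1))

theorem result :
    Tendsto (fun n : ℕ => (Nat.card {M : Arc → Perm (Fin n) // Ham M} : ℝ) /
      Nat.card (Arc → Perm (Fin n))) atTop (𝓝 0) :=
  Pool.Agent.H.MP_ff6929_pr.main

end Pool.Agent.Results.MP_ff6929_pr.NotHam
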